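import Pool.Agent.U173.PT.Defs
import Pool.Agent.TH132.A.Defs

/-!
# Cycles on products with good varieties: definitions
-/

set_option autoImplicit false

open CategoryTheory AlgebraicGeometry

universe u

namespace Pool.Agent.U173.PT

open Pool.Agent.H914 Pool.Agent.H914.VarClass Pool.Agent.H914.VarClass.Obj
  Pool.Agent.H914.WeilCohomology Pool.Agent.H281R3.HT Pool.Agent.TH125.Gal
  Pool.Agent.U173.SL Pool.Agent.U173.PS

variable {k : Type u} [Field k] {𝒱 : VarClass k} {ops : CycleOps 𝒱}
  {W : WeilCohomology.{u, 0} ops} {Γ : Type} [Group Γ]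

/-- The product of the varieties `X i`, `i` in the list, and of `Z`. -/
noncomputable def prodObj {I : Type} (X : I → GVar W Γ) (Z : 𝒱.Obj) : List I → 𝒱.Obj
  | [] => Z
  | i :: l => (X i).X.prod (prodObj X Z l)

/-- `IsSystem`, and the varieties are members of the class `G`, whose members have the formal properties
of varieties with a Galois action and which is closed under products. -/
structure IsGaloisSystem {I I' : Type} (χ : Γ →* W.Kˣ) (G : Set (GVar W Γ))
    (P : I → Set (Place Γ)) (E L : I → Place Γ → IntermediateField ℚ (AlgebraicClosure ℚ))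
    (X : I → GVar W Γ) (Y : I' → GVar W Γ) (Z : GVar W Γ) (l : List I) (l' : List I') : Prop where
  system : IsSystem χ P E L X Y Z l l'
  galoisClass : GaloisClass χ G
  mem : ∀ i, X i ∈ G
  mem_others : ∀ j, Y j ∈ G
  mem_base : Z ∈ G

end Pool.Agent.U173.PT
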