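import Pool.Agent.U173.PT.Main
import Pool.Agent.U173.PT.CycDefs

/-!
# Cycles on products with good varieties
-/

set_option autoImplicit false
set_option linter.unusedSectionVars false

open CategoryTheory AlgebraicGeometry
open scoped TensorProduct

universe u

namespace Pool.Agent.U173.PT

open Pool.Agent.H914 Pool.Agent.H914.VarClass Pool.Agent.H914.VarClass.Obj
  Pool.Agent.H914.WeilCohomology Pool.Agent.H281R3.HT Pool.Agent.TH125.Gal
  Pool.Agent.U173.SL Pool.Agent.U173.PS Pool.Agent.N179.TL Pool.Agent.W552 Pool.Agent.TH132.A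

variable {k : Type u} [Field k] {𝒱 : VarClass k} {ops : CycleOps 𝒱}
  {W : WeilCohomology.{u, 0} ops} {Γ : Type} [Group Γ] {χ : Γ →* W.Kˣ}
  {I I' : Type} {X : I → GVar W Γ} {Y : I' → GVar W Γ} {Z : GVar W Γ}
  {P : I → Set (Place Γ)} {E L : I → Place Γ → IntermediateField ℚ (AlgebraicClosure ℚ)}
  {l : List I} {l' : List I'} {G : Set (GVar W Γ)}

/-- **The classes of cycles on the product.** -/
theorem IsSystem.tens [IsAlgClosed W.K] {i : I}
    (h : IsSystem χ P E L X Y Z (i :: l) l') {B B' : GVar W Γ} (hB : IsProductOf Y Z l' B)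
    (hB' : IsProductOf X B l B') {V : GVar W Γ} (hV : IsProdVar (X i) B' V)
    (hVG : IsGaloisVar χ V) :
    ∀ z, AS W ((X i).X.prod B'.X) z → z ∈ Pool.Agent.TH132.A.tens W (X i).X B'.X := by
  obtain ⟨υ, h1, h2⟩ := hV
  intro z hz
  refine mem_tens (h.homEqNum i) hz ?_
  refine AS.ind (p := fun z => z ∈ Submodule.span W.K {w | ∃ x y, AS W (X i).X x ∧
    w = ext W x y}) ?_ (fun _ _ ha hb => Submodule.add_mem _ ha hb) hz
  intro j x hx
  obtain ⟨Δ, hΔ, hfix⟩ := hVG.cl_fix j x hx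
  have h3 := h.split hB hB' h1 h2 hΔ hfix
  refine Submodule.span_le.2 ?_ h3
  rintro _ ⟨a, ha, y, rfl⟩
  rw [Pool.Agent.TH125.Gal.algSpan_eq] at ha
  change W.map (fst (X i).X B'.X) a * W.map (snd (X i).X B'.X) y ∈ _
  induction ha using Submodule.span_induction with
  | mem a ha => exact Submodule.subset_span ⟨a, y, ha, rfl⟩
  | zero => rw [map_zero, zero_mul]; exact Submodule.zero_mem _
  | add x y _ _ hx hy => rw [map_add, add_mul]; exact Submodule.add_mem _ hx hy
  | smul r x _ hx => rw [map_smul, smul_mul_assoc]; exact Submodule.smul_mem _ _ hx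

/-- the actions on the products -/
theorem exists_act (hG : GaloisClass χ G) (hX : ∀ i, X i ∈ G) {B : 𝒱.Obj}
    {β : Γ →* (W.H B ≃ₐ[W.K] W.H B)} (hB : (⟨B, β⟩ : GVar W Γ) ∈ G) (l : List I) :
    ∃ τ : Γ →* (W.H (prodObj X B l) ≃ₐ[W.K] W.H (prodObj X B l)),
      (⟨prodObj X B l, τ⟩ : GVar W Γ) ∈ G ∧
        IsProductOf X (⟨B, β⟩ : GVar W Γ) l ⟨prodObj X B l, τ⟩ := by
  induction l with
  | nil => exact ⟨β, hB, IsProductOf.nil⟩
  | cons i l ih =>
    obtain ⟨τ, hτ, hp⟩ := ih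
    obtain ⟨C, hC, hprod⟩ := hG.prod _ (hX i) _ hτ
    obtain ⟨υ, h1, h2⟩ := hprod
    exact ⟨υ, hC, IsProductOf.cons hp ⟨υ, h1, h2⟩⟩

/-- **The classes of cycles on the product, in a system.** -/
theorem IsGaloisSystem.tens [IsAlgClosed W.K] {i : I}
    (h : IsGaloisSystem χ G P E L X Y Z (i :: l) l') :
    ∀ z, AS W ((X i).X.prod (prodObj X (prodObj Y Z.X l') l)) z →
      z ∈ Pool.Agent.TH132.A.tens W (X i).X (prodObj X (prodObj Y Z.X l') l) := by
  obtain ⟨β, hβ, hpβ⟩ := exists_act h.galoisClass h.mem_others (B := Z.X) (β := Z.act)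
    h.mem_base l'
  obtain ⟨τ, hτ, hpτ⟩ := exists_act h.galoisClass h.mem hβ l
  obtain ⟨V, hV, hprod⟩ := h.galoisClass.prod _ (h.mem i) _ hτ
  exact h.system.tens hpβ hpτ hprod (h.galoisClass.galois _ hV)

theorem IsGaloisSystem.tail {i : I} (h : IsGaloisSystem χ G P E L X Y Z (i :: l) l') :
    IsGaloisSystem χ G P E L X Y Z l l' :=
  ⟨h.system.tail, h.galoisClass, h.mem, h.mem_others, h.mem_base⟩

/-- **Conjecture D for products.** -/
theorem IsGaloisSystem.homEqNum_iff [IsAlgClosed W.K]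
    (h : IsGaloisSystem χ G P E L X Y Z l l') :
    HomEqNum W (prodObj X (prodObj Y Z.X l') l) ↔ HomEqNum W (prodObj Y Z.X l') := by
  induction l with
  | nil => exact Iff.rfl
  | cons i l ih =>
    rw [← ih h.tail]
    exact homEqNum_prod_iff h.tens (h.system.homEqNum i) (h.system.ne_zero i)

end Pool.Agent.U173.PT
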