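import Pool.Agent.TH125.Gal.Pub2
import Pool.Agent.U173.PS.NumDefs
import Pool.Agent.U173.SL.GeoDefs

/-!
# Varieties over finitely generated fields without potentially stable supersingular parts: definitions

The framework (`GVar`, `IsGaloisVar`, `IsProdVar`, `TateConjecture`: varieties with an action of a group
on the Weil cohomology, with the formal properties of a Galois action) is that of the starting library
`TH125/Gal/Pub2`.
-/

set_option autoImplicit false

open CategoryTheory AlgebraicGeometry

universe u

namespace Pool.Agent.U173.PT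

open Pool.Agent.H914 Pool.Agent.H914.VarClass Pool.Agent.H914.VarClass.Obj
  Pool.Agent.H914.WeilCohomology Pool.Agent.H281R3.HT Pool.Agent.TH125.Gal
  Pool.Agent.U173.SL Pool.Agent.U173.PS

/-- A place with residue field of `p ^ m` elements: `σ` is a geometric Frobenius element, and `ι` an
embedding of the algebraic numbers into an algebraic closure of the field of `p`-adic numbers. -/
structure Place (Γ : Type) where
  σ : Γ
  p : ℕ
  m : ℕ
  [prime : Fact p.Prime]
  ι : AlgebraicClosure ℚ →+* PadicAlgCl p

attribute [instance] Place.prime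

section Act

variable {K : Type} [Field K] {A : Type} [Ring A] [Algebra K A] {B : Type} [Ring B] [Algebra K B]
  {C : Type} [Ring C] [Algebra K C] {Γ : Type} [Group Γ]

/-- `t` is an eigenvector of the group element `g` with eigenvalue `α`. -/
def IsEigen (ρ : Γ →* (A ≃ₐ[K] A)) (g : Γ) (α : K) (t : A) : Prop := t ≠ 0 ∧ ρ g t = α • t

/-- The subspace `U` is stable under the subgroup `Δ`. -/
def StableAct (ρ : Γ →* (A ≃ₐ[K] A)) (Δ : Subgroup Γ) (U : Submodule K A) : Prop :=
  ∀ g ∈ Δ, ∀ t ∈ U, ρ g t ∈ U

/-- The subspace `U` is supersingular at the place `v`: the eigenvalues on `U` of all powers of the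
Frobenius at `v` are, up to roots of unity, rational powers of `p`. -/
def SupersingularAct (v : Place Γ) (ρ : Γ →* (A ≃ₐ[K] A)) (U : Submodule K A) : Prop :=
  ∀ (n : ℕ) (α : K), 0 < n → ∀ t ∈ U, IsEigen ρ (v.σ ^ n) α t →
    ∃ (N : ℕ) (b : ℤ), 0 < N ∧ α ^ N = (v.p : K) ^ b

/-- The eigenvalues on the subspace `U` of the Frobenius at `v` are Weil numbers. -/
def PureAct (v : Place Γ) (ρ : Γ →* (A ≃ₐ[K] A)) (U : Submodule K A) : Prop :=
  ∀ (α : K), ∀ t ∈ U, IsEigen ρ v.σ α t → ∃ w, IsWeilNumber (v.p ^ v.m) w α

/-- `M` is a slope field at the place `v` of the subspace `U`: a slope field of all eigenvalues on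
`U` of the Frobenius at `v`. -/
def SlopesAct [CharZero K] (v : Place Γ) (M : IntermediateField ℚ (AlgebraicClosure ℚ))
    (ρ : Γ →* (A ≃ₐ[K] A)) (U : Submodule K A) : Prop :=
  ∀ (α : K), ∀ t ∈ U, IsEigen ρ v.σ α t → HasSlopesIn v.p v.ι M α

/-- The space `A` is the direct sum of `S` and a subspace `T` stable under `Γ`, such that for all places
`v` in `P` the eigenvalues of the Frobenius at `v` on `T` are Weil numbers with slope field `L v`, and
such that no nonzero subspace of `T` which is stable under a subgroup of finite index is supersingular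
at all places in `P`. -/
def GoodAct [CharZero K] (P : Set (Place Γ))
    (L : Place Γ → IntermediateField ℚ (AlgebraicClosure ℚ)) (ρ : Γ →* (A ≃ₐ[K] A))
    (S : Submodule K A) : Prop :=
  ∃ T : Submodule K A, StableAct ρ ⊤ T ∧ IsCompl T S ∧
    (∀ v ∈ P, PureAct v ρ T ∧ SlopesAct v (L v) ρ T) ∧
    ∀ Δ : Subgroup Γ, Δ.FiniteIndex → ∀ U ≤ T, StableAct ρ Δ U →
      (∀ v ∈ P, SupersingularAct v ρ U) → U = ⊥

/-- `c` is a Tate class of codimension `n`: it is in the degree `2 n`, and a subgroup of finite index
multiplies it by the `n`-th power of the character `χ` (so it fixes `c` in the twisted cohomology). -/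
def IsTateAct (χ : Γ →* Kˣ) (gr : ℕ → Submodule K A) (ρ : Γ →* (A ≃ₐ[K] A)) (n : ℕ) (c : A) :
    Prop :=
  c ∈ gr (2 * n) ∧ ∃ Δ : Subgroup Γ, Δ.FiniteIndex ∧ ∀ g ∈ Δ, ρ g c = (χ g : K) ^ n • c

/-- The Tate classes in `C` are linear combinations of products of elements `f a`, `a` a class in
`cyc e` (of a cycle of codimension `e`), and `f' b`, `b` a Tate class in `B`. -/
def SplitAct (χ : Γ →* Kˣ) (cyc : ℕ → Set A) (f : A →ₐ[K] C) (f' : B →ₐ[K] C)
    (gr' : ℕ → Submodule K B) (ρ' : Γ →* (B ≃ₐ[K] B)) (gr : ℕ → Submodule K C)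
    (ρ : Γ →* (C ≃ₐ[K] C)) : Prop :=
  ∀ (n : ℕ) (c : C), IsTateAct χ gr ρ n c →
    c ∈ Submodule.span K {w | ∃ e ≤ n, ∃ a ∈ cyc e, ∃ b, IsTateAct χ gr' ρ' (n - e) b ∧
      w = f a * f' b}

end Act

variable {k : Type u} [Field k] {𝒱 : VarClass k} {ops : CycleOps 𝒱}
  {W : WeilCohomology.{u, 0} ops} {Γ : Type} [Group Γ]

/-- `A` is good for the set `P` of places, with slope fields `L v`: `GoodAct` for the action on the
cohomology and the span of the classes of algebraic cycles (over `k`). -/
def IsGood (P : Set (Place Γ)) (L : Place Γ → IntermediateField ℚ (AlgebraicClosure ℚ))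
    (A : GVar W Γ) : Prop :=
  GoodAct P L A.act (algSpan W A.X)

/-- `A` has at `v` a slope field which contains `E` and meets `L` in a totally real field. -/
def MeetsInReal (v : Place Γ) (E L : IntermediateField ℚ (AlgebraicClosure ℚ)) (A : GVar W Γ) :
    Prop :=
  ∃ M, E ≤ M ∧ MeetInReal L M ∧ SlopesAct v M A.act ⊤

/-- The variety `A` is apart from the slope field `L` at the place `v`: the field `L` is normal over
`E`, and `A` is pure at `v` and has there a slope field which contains `E` and meets `L` in a totally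
real field. -/
def IsApart (v : Place Γ) (E L : IntermediateField ℚ (AlgebraicClosure ℚ)) (A : GVar W Γ) : Prop :=
  IsNormalOver E L ∧ PureAct v A.act ⊤ ∧ MeetsInReal v E L A

/-- The totally real fields `E v` are contained in the fields `L v`, and the character `χ` has at the
Frobenius elements the values `p ^ m`, `m > 0`, for all places `v` in `P`. -/
structure IsDatum {K : Type} [Field K] (χ : Γ →* Kˣ) (P : Set (Place Γ))
    (E L : Place Γ → IntermediateField ℚ (AlgebraicClosure ℚ)) : Prop where
  pos : ∀ v ∈ P, 0 < v.m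
  character : ∀ v ∈ P, (χ v.σ : K) = (v.p : K) ^ v.m
  real : ∀ v ∈ P, ∀ z ∈ E v, IsTotallyReal z
  le : ∀ v ∈ P, E v ≤ L v

/-- Each `X i` is good for the set `P i` of places, with slope fields `L i v` which contain totally
real fields `E i v`. For all `v` in `P i`, the varieties `X j` with indices behind `i` in the list `l` and
the varieties `Y j`, `j` in the list `l'`, are apart from `L i v` at the place `v`; and `Z` has at `v` a
slope field which contains `E i v` and meets `L i v` in a totally real field. -/
structure IsSystem {I I' : Type} (χ : Γ →* W.Kˣ) (P : I → Set (Place Γ))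
    (E L : I → Place Γ → IntermediateField ℚ (AlgebraicClosure ℚ)) (X : I → GVar W Γ)
    (Y : I' → GVar W Γ) (Z : GVar W Γ) (l : List I) (l' : List I') : Prop where
  galois : ∀ i, IsGaloisVar χ (X i)
  ne_zero : ∀ i, (1 : W.H (X i).X) ≠ 0
  datum : ∀ i, IsDatum χ (P i) (E i) (L i)
  good : ∀ i, IsGood (P i) (L i) (X i)
  pairs : l.Pairwise fun i j => ∀ v ∈ P i, IsApart v (E i v) (L i v) (X j)
  others : ∀ i, ∀ j ∈ l', ∀ v ∈ P i, IsApart v (E i v) (L i v) (Y j)
  base : ∀ i, ∀ v ∈ P i, MeetsInReal v (E i v) (L i v) Z

/-- `V` is the product of the varieties `X i`, `i` in the list, and of `Z`, with an action on the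
cohomology which is compatible with the projections. -/
inductive IsProductOf {I : Type} (X : I → GVar W Γ) (Z : GVar W Γ) : List I → GVar W Γ → Prop
  | nil : IsProductOf X Z [] Z
  | cons {i : I} {l : List I} {B V : GVar W Γ} :
      IsProductOf X Z l B → IsProdVar (X i) B V → IsProductOf X Z (i :: l) V

/-- For all actions on the cohomology of the product of `A` and `B` which are compatible with the
projections, the Tate classes on the product are linear combinations of products of classes of algebraic
cycles on `A` with Tate classes on `B`. -/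
def ClassesSplit (χ : Γ →* W.Kˣ) (A B : GVar W Γ) : Prop :=
  ∀ υ : Γ →* (W.H (A.X.prod B.X) ≃ₐ[W.K] W.H (A.X.prod B.X)),
    Intertwines (W.map (fst A.X B.X)) A.act υ → Intertwines (W.map (snd A.X B.X)) B.act υ →
    SplitAct χ (algClasses W A.X) (W.map (fst A.X B.X)) (W.map (snd A.X B.X)) (W.gr B.X) B.act
      (W.gr (A.X.prod B.X)) υ

end Pool.Agent.U173.PT
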