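import Pool.Agent.U173.PT.Main

/-!
# The Tate conjecture for products with good varieties: conclusions
-/

set_option autoImplicit false
set_option linter.unusedSectionVars false

open CategoryTheory AlgebraicGeometry
open scoped TensorProduct

universe u

namespace Pool.Agent.U173.PT

open Pool.Agent.H914 Pool.Agent.H914.VarClass Pool.Agent.H914.VarClass.Obj
  Pool.Agent.H914.WeilCohomology Pool.Agent.H281R3.HT Pool.Agent.TH125.Gal
  Pool.Agent.U173.SL Pool.Agent.U173.PS Pool.Agent.N179.TL Pool.Agent.W552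

variable {k : Type u} [Field k] {𝒱 : VarClass k} {ops : CycleOps 𝒱}
  {W : WeilCohomology.{u, 0} ops} {Γ : Type} [Group Γ] {χ : Γ →* W.Kˣ}

/-- if the cohomology is spanned by the classes of cycles then the Tate conjecture is true -/
theorem tate_of_top {A : GVar W Γ} (h : algSpan W A.X = ⊤) : TateConjecture χ A := by
  intro j c hcj _
  exact algSpan_gr (by rw [h]; trivial) hcj

section

variable {X Y : GVar W Γ} {υ : Γ →* (W.H (X.X.prod Y.X) ≃ₐ[W.K] W.H (X.X.prod Y.X))}

open Pool.Agent.N179.FG in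
/-- the coefficients of the Tate classes are Tate classes -/
theorem span_of_split (hDX : HomEqNum W X.X)
    (hX : IsGaloisAct χ (W.gr X.X) X.X.dim (W.tr X.X) (algClasses W X.X) X.act)
    (h1 : Intertwines (W.map (fst X.X Y.X)) X.act υ)
    (h2 : Intertwines (W.map (snd X.X Y.X)) Y.act υ)
    (hsplit : ∀ (c : W.H (X.X.prod Y.X)) (j : ℕ) (Δ : Subgroup Γ), Δ.FiniteIndex →
      (∀ g ∈ Δ, υ g c = (χ g : W.K) ^ j • c) →
      c ∈ Submodule.span W.K {w | ∃ a ∈ algSpan W X.X, ∃ y : W.H Y.X,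
        w = W.map (fst X.X Y.X) a * W.map (snd X.X Y.X) y})
    {n : ℕ} {c : W.H (X.X.prod Y.X)}
    (hct : IsTateAct χ (W.gr (X.X.prod Y.X)) υ n c) :
    c ∈ Submodule.span W.K {w | ∃ e ≤ n, ∃ a ∈ algClasses W X.X e, ∃ b,
      IsTateAct χ (W.gr Y.X) Y.act (n - e) b ∧
        w = W.map (fst X.X Y.X) a * W.map (snd X.X Y.X) b} := by
  obtain ⟨hcj, Δ, hΔ, hc⟩ := hct
  have hG : IsGalois W χ X.X X.act := isGalois hX
  obtain ⟨s⟩ := exists_SB hDX
  have hexp := expand_alg s (hsplit c n Δ hΔ hc)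
  obtain ⟨Δ', hΔ', hfix⟩ := exists_fix hG s
  -- uniqueness
  have huni : ∀ (x : Fin s.NC → W.H Y.X) (l : Fin s.NC),
      ctr (s.e.coord (Sum.inl l)) (∑ l', W.map (fst X.X Y.X) (s.bC l' : W.H X.X) *
        W.map (snd X.X Y.X) (x l')) = x l := by
    intro x l
    rw [map_sum, Finset.sum_eq_single l]
    · rw [ctr_apply, coord_inl, if_pos rfl, one_smul]
    · intro l' _ hl
      rw [ctr_apply, coord_inl, if_neg hl, zero_smul]
    · intro h
      exact absurd (Finset.mem_univ _) h
  set x : Fin s.NC → W.H Y.X := fun l => ctr (s.e.coord (Sum.inl l)) c with hx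
  have hdeg : ∀ l, x l = if 2 * s.jC l ≤ 2 * n then
      H914.proj (W.isInternal Y.X) (2 * n - 2 * s.jC l) (x l) else 0 := by
    intro l
    have h3 : c = ∑ l', W.map (fst X.X Y.X) (s.bC l' : W.H X.X) * W.map (snd X.X Y.X)
        (if 2 * s.jC l' ≤ 2 * n then
          H914.proj (W.isInternal Y.X) (2 * n - 2 * s.jC l') (x l') else 0) := by
      conv_lhs => rw [← H914.proj_same (W.isInternal _) hcj, hexp]
      rw [map_sum]
      refine Finset.sum_congr rfl fun l' _ => ?_
      rw [TH125.Gal.proj_ext (alg_gr (s.alg l'))]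
      by_cases h : 2 * s.jC l' ≤ 2 * n
      · rw [if_pos h, if_pos h]
      · rw [if_neg h, if_neg h, map_zero, mul_zero]
    conv_lhs => rw [hx]
    beta_reduce
    rw [h3]
    exact huni _ l
  -- semi-invariance
  have hact : ∀ g ∈ Δ ⊓ Δ', ∀ l, (χ g : W.K) ^ s.jC l • Y.act g (x l) = (χ g : W.K) ^ n • x l := by
    intro g hg l
    have h3 : υ g c = ∑ l', W.map (fst X.X Y.X) (s.bC l' : W.H X.X) * W.map (snd X.X Y.X)
        ((χ g : W.K) ^ s.jC l' • Y.act g (x l')) := by
      conv_lhs => rw [hexp]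
      rw [map_sum]
      refine Finset.sum_congr rfl fun l' _ => ?_
      rw [map_mul, h1 g, hfix g hg.2, h2 g, map_smul, map_smul, smul_mul_assoc, mul_smul_comm]
    have h4 := huni (fun l' => (χ g : W.K) ^ s.jC l' • Y.act g (x l')) l
    rw [← h3] at h4
    have h5 : υ g c = (χ g : W.K) ^ n • c := hc g hg.1
    rw [h5, map_smul] at h4
    exact h4.symm
  rw [hexp]
  refine Submodule.sum_mem _ fun l _ => ?_
  by_cases h : 2 * s.jC l ≤ 2 * n
  · have h3 := hdeg l
    rw [if_pos h] at h3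
    refine Submodule.subset_span ⟨s.jC l, by omega, _, s.alg l, x l, ⟨?_, Δ ⊓ Δ', inferInstance,
      fun g hg => ?_⟩, rfl⟩
    · rw [h3, show 2 * (n - s.jC l) = 2 * n - 2 * s.jC l by omega]
      exact H914.proj_mem _ _ _
    · have h6 := hact g hg l
      have h7 : (χ g : W.K) ^ n = (χ g : W.K) ^ s.jC l * (χ g : W.K) ^ (n - s.jC l) := by
        rw [← pow_add]
        congr 1
        omega
      rw [h7, mul_smul] at h6
      exact smul_right_injective _ (pow_ne_zero _ (Units.ne_zero (χ g))) h6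
  · have h3 := hdeg l
    rw [if_neg h] at h3
    change W.map (fst X.X Y.X) (s.bC l : W.H X.X) * W.map (snd X.X Y.X) (x l) ∈ _
    rw [h3, map_zero, mul_zero]
    exact Submodule.zero_mem _

end

variable {I I' : Type} {X : I → GVar W Γ} {Y : I' → GVar W Γ} {Z : GVar W Γ}
  {P : I → Set (Place Γ)} {E L : I → Place Γ → IntermediateField ℚ (AlgebraicClosure ℚ)}
  {l' : List I'}

/-- **The Tate classes in a system are sums of products.** -/
theorem IsSystem.classesSplit [IsAlgClosed W.K] {i : I} {l : List I}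
    (h : IsSystem χ P E L X Y Z (i :: l) l') {B B' : GVar W Γ} (hB : IsProductOf Y Z l' B)
    (hB' : IsProductOf X B l B') : ClassesSplit χ (X i) B' :=
  fun _ h1 h2 _ _ hc => span_of_split (h.homEqNum i) (h.galois i) h1 h2
    (fun _ _ _ hΔ hc => h.split hB hB' h1 h2 hΔ hc) hc

end Pool.Agent.U173.PT
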