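import Pool.Agent.U173.PT.Split

/-!
# Homological and numerical equivalence on good varieties
-/

set_option autoImplicit false
set_option linter.unusedSectionVars false

open CategoryTheory AlgebraicGeometry
open scoped TensorProduct

universe u

namespace Pool.Agent.U173.PT

open Pool.Agent.H914 Pool.Agent.H914.VarClass Pool.Agent.H914.VarClass.Obj
  Pool.Agent.H914.WeilCohomology Pool.Agent.H281R3.HT Pool.Agent.TH125.Gal
  Pool.Agent.U173.SL Pool.Agent.U173.PS Pool.Agent.N179.TL Pool.Agent.W552

variable {k : Type u} [Field k] {𝒱 : VarClass k} {ops : CycleOps 𝒱}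
  {W : WeilCohomology.{u, 0} ops} {Γ : Type} [Group Γ] {χ : Γ →* W.Kˣ} {X : GVar W Γ}

/-- **Homological and numerical equivalence coincide on good varieties.** -/
theorem homEqNum_of_good {P : Set (Place Γ)}
    (hP : ∀ v ∈ P, ((χ v.σ : W.Kˣ) : W.K) = (v.p : W.K) ^ v.m) (hX : IsGaloisVar χ X)
    {T : Submodule W.K (W.H X.X)} (hT : StableAct X.act ⊤ T) (hc : IsCompl T (algSpan W X.X))
    (hss : ∀ Δ : Subgroup Γ, Δ.FiniteIndex → ∀ U ≤ T, StableAct X.act Δ U →
      (∀ v ∈ P, SupersingularAct v X.act U) → U = ⊥) : HomEqNum W X.X := by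
  have htr : ∀ (g : Γ) (a : W.H X.X), W.tr X.X (X.act g a) = (χ g : W.K) ^ X.X.dim * W.tr X.X a :=
    hX.tr_act
  -- the orthogonal space of `T`
  let N : Submodule W.K (W.H X.X) :=
    { carrier := {y | ∀ t ∈ T, W.tr X.X (y * t) = 0}
      zero_mem' := fun t _ => by rw [zero_mul, map_zero]
      add_mem' := fun {a b} ha hb t ht => by rw [add_mul, map_add, ha t ht, hb t ht, add_zero]
      smul_mem' := fun c a ha t ht => by rw [smul_mul_assoc, map_smul, ha t ht, smul_zero] }
  have hinv : ∀ (g : Γ) (x : W.H X.X), X.act g (X.act g⁻¹ x) = x :=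
    fun g x => act_inv X.act g x
  have hN : ∀ g, ∀ y ∈ N, X.act g y ∈ N := by
    intro g y hy t ht
    have h1 : t = X.act g (X.act g⁻¹ t) := (hinv g t).symm
    rw [h1, ← map_mul, htr, hy _ (hT g⁻¹ trivial t ht), mul_zero]
  let U : Submodule W.K (W.H X.X) := N.map (T.projection (algSpan W X.X) hc)
  have hUT : U ≤ T := by
    rintro _ ⟨y, -, rfl⟩
    exact Submodule.projection_apply_mem hc y
  have hcomm : ∀ g x, T.projection (algSpan W X.X) hc (X.act g x) =
      X.act g (T.projection (algSpan W X.X) hc x) := fun g x =>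
    Pool.Agent.U173.GS.proj_comm (F := (X.act g).toLinearMap) hc
      (fun x hx => act_algSpan (isGalois hX) g hx) (hT g trivial) x
  have hUs : StableAct X.act ⊤ U := by
    rintro g - _ ⟨y, hy, rfl⟩
    exact ⟨X.act g y, hN g y hy, hcomm g y⟩
  have hU : U = ⊥ := by
    refine hss ⊤ inferInstance U hUT hUs ?_
    intro v hv n α hn t ht hα
    by_contra hno
    push Not at hno
    -- `σ ^ n - α` is injective on `N`
    let g : Γ := v.σ ^ n
    let f : Module.End W.K N := (X.act g).toLinearMap.restrict (hN g) -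
      α • (1 : Module.End W.K N)
    have hf : Function.Injective f := by
      rw [injective_iff_map_eq_zero]
      rintro ⟨y, hy⟩ h0
      apply Subtype.ext
      change y = 0
      have h1 : X.act g y = α • y := sub_eq_zero.1 (congrArg Subtype.val h0)
      apply W.nondeg
      intro b
      have hb : b ∈ T ⊔ algSpan W X.X := by rw [hc.sup_eq_top]; trivial
      obtain ⟨t', ht', a, ha, rfl⟩ := Submodule.mem_sup.1 hb
      rw [mul_add, map_add, hy t' ht', zero_add]
      clear hb
      induction ha using Submodule.span_induction with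
      | mem a ha =>
        obtain ⟨i, hi⟩ := Set.mem_iUnion.1 ha
        obtain ⟨Δ, hΔ, hfix⟩ := hX.cl_fix i a hi
        obtain ⟨d, hd, -, hdΔ⟩ := Subgroup.exists_pow_mem_of_index_ne_zero hΔ.index_ne_zero g
        have h2 := htr (g ^ d) (y * a)
        rw [map_mul, eigen_pow h1 d, hfix _ hdΔ, smul_mul_smul_comm, map_smul, smul_eq_mul] at h2
        have h3 : (α ^ d * (χ (g ^ d) : W.K) ^ i - (χ (g ^ d) : W.K) ^ X.X.dim) *
            W.tr X.X (y * a) = 0 := by
          rw [sub_mul, h2, sub_self]
        rcases mul_eq_zero.1 h3 with h4 | h4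
        · exfalso
          have hne : (χ (g ^ d) : W.K) ≠ 0 := Units.ne_zero _
          have hval : (χ (g ^ d) : W.K) = (v.p : W.K) ^ ((v.m * n * d : ℕ) : ℤ) := by
            change ((χ ((v.σ ^ n) ^ d) : W.Kˣ) : W.K) = _
            rw [map_pow, map_pow, Units.val_pow_eq_pow_val, Units.val_pow_eq_pow_val, hP v hv,
              zpow_natCast, ← pow_mul, ← pow_mul, mul_assoc]
          refine hno d (((v.m * n * d : ℕ) : ℤ) * ((X.X.dim : ℤ) - i)) hd ?_
          rw [zpow_mul, ← hval, zpow_sub₀ hne, zpow_natCast, zpow_natCast,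
            eq_div_iff (pow_ne_zero _ hne)]
          exact sub_eq_zero.1 h4
        · exact h4
      | zero => rw [mul_zero, map_zero]
      | add x y _ _ hx hy => rw [mul_add, map_add, hx, hy, add_zero]
      | smul r x _ hx => rw [mul_smul_comm, map_smul, hx, smul_zero]
    have hfs := LinearMap.injective_iff_surjective.1 hf
    apply hα.1
    refine Pool.Agent.U173.GS.no_eigen (W := U) (F := (X.act g).toLinearMap) (hUs g trivial)
      (α := α) ?_ ht hα.2
    rintro _ ⟨y, hy, rfl⟩
    obtain ⟨⟨s, hs⟩, h1⟩ := hfs ⟨y, hy⟩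
    refine ⟨_, ⟨s, hs, rfl⟩, ?_⟩
    have h2 : X.act g s - α • s = y := congrArg Subtype.val h1
    change X.act g (T.projection (algSpan W X.X) hc s) - _ = _
    rw [← hcomm, ← map_smul (T.projection (algSpan W X.X) hc), ← map_sub, h2]
  have hNA : N ≤ algSpan W X.X := by
    intro y hy
    have h1 : T.projection (algSpan W X.X) hc y ∈ U := ⟨y, hy, rfl⟩
    rw [hU] at h1
    exact (Submodule.projection_apply_eq_zero_iff hc).1 ((Submodule.mem_bot W.K).1 h1)
  -- dimensions
  have hNeq : N = algSpan W X.X := by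
    refine Submodule.eq_of_le_of_finrank_eq hNA ?_
    let Ψ₀ : W.H X.X →ₗ[W.K] Module.Dual W.K (W.H X.X) :=
      LinearMap.mk₂ W.K (fun y t => W.tr X.X (y * t)) (fun a b t => by rw [add_mul, map_add])
        (fun c a t => by rw [smul_mul_assoc, map_smul]) (fun a t s => by rw [mul_add, map_add])
        (fun c a t => by rw [mul_smul_comm, map_smul])
    have hΨ₀ : Function.Injective Ψ₀ := by
      rw [injective_iff_map_eq_zero]
      intro a ha
      exact W.nondeg a fun b => LinearMap.congr_fun ha b
    have hΨs : Function.Surjective Ψ₀ := by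
      have h1 : Module.finrank W.K (W.H X.X) =
          Module.finrank W.K (Module.Dual W.K (W.H X.X)) := (Subspace.dual_finrank_eq).symm
      exact (LinearMap.injective_iff_surjective_of_finrank_eq_finrank h1).1 hΨ₀
    let Ψ : W.H X.X →ₗ[W.K] Module.Dual W.K T := T.subtype.dualMap ∘ₗ Ψ₀
    have hΨ : Function.Surjective Ψ :=
      (LinearMap.dualMap_surjective_of_injective T.injective_subtype).comp hΨs
    have hker : LinearMap.ker Ψ = N := by
      ext y
      constructor
      · intro hy t ht
        exact LinearMap.congr_fun hy ⟨t, ht⟩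
      · intro hy
        refine LinearMap.ext fun t => ?_
        exact hy t t.2
    have h1 := LinearMap.finrank_range_add_finrank_ker Ψ
    rw [LinearMap.range_eq_top.2 hΨ, finrank_top, Subspace.dual_finrank_eq, hker] at h1
    have h2 := Submodule.finrank_add_eq_of_isCompl hc
    omega
  intro j hj z hz hnum
  set x := W.cl X.X z with hx
  have hxj : x ∈ algClasses W X.X j := ⟨z, hz, rfl⟩
  have h0 : ∀ y, AS W X.X y → W.tr X.X (x * y) = 0 := by
    intro y hy
    refine AS.ind (p := fun y => W.tr X.X (x * y) = 0) ?_ ?_ hy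
    · rintro i _ ⟨w, hw, rfl⟩
      by_cases hi : j + i = X.X.dim
      · have h1 := ops.mul_mem hz hw
        rw [hi] at h1
        rw [hx, ← W.cl_mul, W.tr_cl h1, hnum w (by rwa [show X.X.dim - j = i by omega]),
          Rat.cast_zero]
      · exact W.tr_eq_zero (W.mul_mem (W.cl_mem hz) (W.cl_mem hw)) (by omega)
    · intro a b ha hb
      rw [mul_add, map_add, ha, hb, add_zero]
  refine W.nondeg x fun b => ?_
  have hb : b ∈ T ⊔ algSpan W X.X := by rw [hc.sup_eq_top]; trivial
  obtain ⟨t, ht, a, ha, rfl⟩ := Submodule.mem_sup.1 hb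
  have h1 : x ∈ N := by
    rw [hNeq]
    exact alg_mem hxj
  rw [mul_add, map_add, h1 t ht, zero_add]
  rw [Pool.Agent.TH125.Gal.algSpan_eq] at ha
  clear hb
  induction ha using Submodule.span_induction with
  | mem y hy => exact h0 y hy
  | zero => rw [mul_zero, map_zero]
  | add a b _ _ ha hb => rw [mul_add, map_add, ha, hb, add_zero]
  | smul r a _ ha => rw [mul_smul_comm, map_smul, ha, smul_zero]

end Pool.Agent.U173.PT
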