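import Pool.Agent.N179.FG.Tat
import Pool.Agent.U173.SF.Sys
import Pool.Agent.U173.PT.Nondeg

/-!
# The Tate conjecture for products with good varieties
-/

set_option autoImplicit false
set_option linter.unusedSectionVars false

open CategoryTheory AlgebraicGeometry
open scoped TensorProduct

universe u

namespace Pool.Agent.U173.PT

open Pool.Agent.H914 Pool.Agent.H914.VarClass Pool.Agent.H914.VarClass.Obj
  Pool.Agent.H914.WeilCohomology Pool.Agent.H281R3.HT Pool.Agent.TH125.Gal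
  Pool.Agent.U173.SL Pool.Agent.U173.PS Pool.Agent.N179.TL Pool.Agent.W552

variable {k : Type u} [Field k] {𝒱 : VarClass k} {ops : CycleOps 𝒱}
  {W : WeilCohomology.{u, 0} ops} {Γ : Type} [Group Γ] {χ : Γ →* W.Kˣ}

/-- eigenvectors and eigenvalues -/
theorem hasEigenvalue_iff {A : GVar W Γ} {g : Γ} {α : W.K} :
    Module.End.HasEigenvalue (A.act g).toLinearMap α ↔ ∃ t, IsEigen A.act g α t := by
  constructor
  · intro h
    obtain ⟨t, ht, ht0⟩ := h.exists_hasEigenvector
    exact ⟨t, ht0, Module.End.mem_eigenspace_iff.1 ht⟩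
  · rintro ⟨t, ht0, ht⟩
    exact Module.End.hasEigenvalue_of_hasEigenvector ⟨Module.End.mem_eigenspace_iff.2 ht, ht0⟩

/-- the eigenvalues on the product of two varieties -/
theorem eig_two [IsAlgClosed W.K] {A B V : GVar W Γ} (h : IsProdVar A B V) {g : Γ} {γ : W.K}
    {w : W.H V.X} (hw : IsEigen V.act g γ w) :
    ∃ α β, (∃ a, IsEigen A.act g α a) ∧ (∃ b, IsEigen B.act g β b) ∧ γ = α * β := by
  obtain ⟨υ, h1, h2⟩ := h
  obtain ⟨α, β, hα, hβ, hγ⟩ := Pool.Agent.N179.FG.eig_prod h1 h2 (hasEigenvalue_iff.2 ⟨w, hw⟩)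
  exact ⟨α, β, hasEigenvalue_iff.1 hα, hasEigenvalue_iff.1 hβ, hγ⟩

/-- the number is apart from the slope field `L` -/
def Apart (v : Place Γ) (E L : IntermediateField ℚ (AlgebraicClosure ℚ)) {K : Type} [Field K]
    [CharZero K] (y : K) : Prop :=
  ∃ N : IntermediateField ℚ (AlgebraicClosure ℚ), E ≤ N ∧ MeetInReal L N ∧
    HasSlopesIn v.p v.ι N y ∧ ∃ w, IsWeilNumber (v.p ^ v.m) w y

/-- the eigenvalues on the products -/
theorem eig_list [IsAlgClosed W.K] {I : Type} {X : I → GVar W Γ} {Z : GVar W Γ} {v : Place Γ}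
    {E L : IntermediateField ℚ (AlgebraicClosure ℚ)} {l : List I} {V : GVar W Γ}
    (h : IsProductOf X Z l V) (hX : ∀ i ∈ l, IsApart v E L (X i)) {γ : W.K} {w : W.H V.X}
    (hw : IsEigen V.act v.σ γ w) :
    ∃ (y : List W.K) (β : W.K), (y ≠ [] → IsNormalOver E L) ∧ (∀ a ∈ y, Apart v E L a) ∧
      (∃ b, IsEigen Z.act v.σ β b) ∧ γ = y.prod * β := by
  induction h generalizing γ with
  | nil => exact ⟨[], γ, fun h => absurd rfl h, by simp, ⟨w, hw⟩, by simp⟩
  | @cons i l B V hB hV ih =>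
    obtain ⟨α, β, ⟨a, ha⟩, ⟨b, hb⟩, rfl⟩ := eig_two hV hw
    obtain ⟨y, β', h1, h2, h3, rfl⟩ := ih (fun j hj => hX j (List.mem_cons_of_mem _ hj)) hb
    obtain ⟨hn, hp, M, hEM, hLM, hM⟩ := hX i List.mem_cons_self
    refine ⟨α :: y, β', fun _ => hn, ?_, h3, by rw [List.prod_cons, mul_assoc]⟩
    intro c hc
    rcases List.mem_cons.1 hc with rfl | hc
    · exact ⟨M, hEM, hLM, hM _ a trivial ha, hp _ a trivial ha⟩
    · exact h2 c hc

variable {I I' : Type} {X : I → GVar W Γ} {Y : I' → GVar W Γ} {Z : GVar W Γ}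
  {P : I → Set (Place Γ)} {E L : I → Place Γ → IntermediateField ℚ (AlgebraicClosure ℚ)}
  {l' : List I'}

theorem IsSystem.tail {i : I} {l : List I} (h : IsSystem χ P E L X Y Z (i :: l) l') :
    IsSystem χ P E L X Y Z l l' :=
  ⟨h.galois, h.ne_zero, h.datum, h.good, (List.pairwise_cons.1 h.pairs).2, h.others, h.base⟩

/-- **The splitting of the potential Tate classes in a system.** -/
theorem IsSystem.split [IsAlgClosed W.K] {i : I} {l : List I}
    (h : IsSystem χ P E L X Y Z (i :: l) l') {B' B : GVar W Γ} (hB' : IsProductOf Y Z l' B')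
    (hB : IsProductOf X B' l B) {υ : Γ →* (W.H ((X i).X.prod B.X) ≃ₐ[W.K] W.H ((X i).X.prod B.X))}
    (h1 : Intertwines (W.map (fst (X i).X B.X)) (X i).act υ)
    (h2 : Intertwines (W.map (snd (X i).X B.X)) B.act υ)
    {c : W.H ((X i).X.prod B.X)} {j : ℕ} {Δ : Subgroup Γ} (hΔ : Δ.FiniteIndex)
    (hcΔ : ∀ g ∈ Δ, υ g c = (χ g : W.K) ^ j • c) :
    c ∈ Submodule.span W.K {w | ∃ a ∈ algSpan W (X i).X, ∃ y : W.H B.X,
      w = W.map (fst (X i).X B.X) a * W.map (snd (X i).X B.X) y} := by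
  obtain ⟨T, hT, hc, hTS, hss⟩ := h.good i
  refine split_of_good (h.datum i).character (h.galois i) hT hc hss ?_ h1 h2 hΔ hcΔ
  intro v hv α t ht hα hno γ b hb n e hn heq
  obtain ⟨M, hEM, hLM, hM⟩ := h.base i v hv
  have hslope := (hTS v hv).2 α t ht hα
  have hweil := (hTS v hv).1 α t ht hα
  have hpairs := (List.pairwise_cons.1 h.pairs).1
  obtain ⟨y, β', hne, hy, ⟨b', hb'⟩, rfl⟩ := eig_list hB (fun j hj => hpairs j hj v hv) hb
  obtain ⟨y', β, hne', hy', ⟨b'', hb''⟩, rfl⟩ := eig_list hB' (fun j hj => h.others i j hj v hv) hb'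
  refine no_relation_star_pow (ι := v.ι) ((h.datum i).real v hv) ((h.datum i).le v hv) hEM hLM (m := v.m)
    ⟨hslope, hweil, fun N b hN => hno N b hN⟩ (Y := y ++ y') ?_
    (fun a ha => ?_) (hM β b'' trivial hb'') hn n e ?_
  · intro hne2
    by_cases hy0 : y = []
    · refine hne' fun h0 => hne2 ?_
      rw [hy0, h0]
      rfl
    · exact hne hy0
  · rcases List.mem_append.1 ha with ha | ha
    · exact hy a ha
    · exact hy' a ha
  · rw [List.prod_append, ← heq, ← mul_pow]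
    congr 1
    ring

theorem IsSystem.homEqNum {l : List I} (h : IsSystem χ P E L X Y Z l l') (i : I) :
    HomEqNum W (X i).X := by
  obtain ⟨T, hT, hc, hTS, hss⟩ := h.good i
  exact homEqNum_of_good (h.datum i).character (h.galois i) hT hc hss

/-- **The Tate conjecture for products.** -/
theorem IsSystem.tate [IsAlgClosed W.K] {l : List I}
    (h : IsSystem χ P E L X Y Z l l') {B' V : GVar W Γ} (hB' : IsProductOf Y Z l' B')
    (hV : IsProductOf X B' l V) : TateConjecture χ V ↔ TateConjecture χ B' := by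
  induction hV with
  | nil => exact Iff.rfl
  | @cons i l B V hB hV ih =>
    rw [← ih h.tail]
    obtain ⟨υ, h1, h2⟩ := hV
    exact ⟨Pool.Agent.N179.FG.tate_conv0 (h.homEqNum i) (h.ne_zero i) h2,
      Pool.Agent.N179.FG.tate_of_split (h.homEqNum i) (h.galois i) h1 h2
        fun c j Δ hΔ hc => h.split hB' hB h1 h2 hΔ hc⟩

end Pool.Agent.U173.PT
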