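import Pool.Agent.N179.FG.Fin
import Pool.Agent.N876.FL.Geo3
import Pool.Agent.U173.GS.Lin
import Pool.Agent.U173.PT.Defs

/-!
# The potential Tate classes on products with good varieties
-/

set_option autoImplicit false
set_option linter.unusedSectionVars false

open CategoryTheory AlgebraicGeometry
open scoped TensorProduct

universe u

namespace Pool.Agent.U173.PT

open Pool.Agent.H914 Pool.Agent.H914.VarClass Pool.Agent.H914.VarClass.Obj
  Pool.Agent.H914.WeilCohomology Pool.Agent.H281R3.HT Pool.Agent.TH125.Gal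
  Pool.Agent.U173.SL Pool.Agent.U173.PS Pool.Agent.N179.TL Pool.Agent.W552

variable {k : Type u} [Field k] {𝒱 : VarClass k} {ops : CycleOps 𝒱}
  {W : WeilCohomology.{u, 0} ops} {Γ : Type} [Group Γ] {χ : Γ →* W.Kˣ} {X Y : GVar W Γ}
  {υ : Γ →* (W.H (X.X.prod Y.X) ≃ₐ[W.K] W.H (X.X.prod Y.X))}

/-- the Künneth isomorphism is equivariant -/
theorem kEquiv_act (h1 : Intertwines (W.map (fst X.X Y.X)) X.act υ)
    (h2 : Intertwines (W.map (snd X.X Y.X)) Y.act υ) (g : Γ) (z : W.H X.X ⊗[W.K] W.H Y.X) :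
    υ g (kEquiv W X.X Y.X z) =
      kEquiv W X.X Y.X (TensorProduct.map (X.act g).toLinearMap (Y.act g).toLinearMap z) := by
  induction z using TensorProduct.induction_on with
  | zero => simp
  | tmul x y =>
    rw [TensorProduct.map_tmul, kEquiv_tmul, kEquiv_tmul, map_mul, h1 g, h2 g]
    rfl
  | add x y hx hy => rw [map_add, map_add, hx, hy, map_add, map_add]

/-- the image of the combinations of products with algebraic classes -/
theorem kEquiv_range (u : (algSpan W X.X : Submodule W.K (W.H X.X)) ⊗[W.K] W.H Y.X) :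
    kEquiv W X.X Y.X (((algSpan W X.X).subtype.rTensor (W.H Y.X)) u) ∈
      Submodule.span W.K {w | ∃ a ∈ algSpan W X.X, ∃ y : W.H Y.X,
        w = W.map (fst X.X Y.X) a * W.map (snd X.X Y.X) y} := by
  induction u using TensorProduct.induction_on with
  | zero => rw [map_zero, map_zero]; exact Submodule.zero_mem _
  | tmul a b =>
    rw [LinearMap.rTensor_tmul, kEquiv_tmul]
    exact Submodule.subset_span ⟨a, a.2, b, rfl⟩
  | add x y hx hy => rw [map_add, map_add]; exact Submodule.add_mem _ hx hy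

/-- eigenvalues of powers on a stable subspace -/
theorem exists_root [IsAlgClosed W.K] {A : GVar W Γ} {T : Submodule W.K (W.H A.X)}
    (hT : StableAct A.act ⊤ T) {g : Γ} {n : ℕ} (hn : 0 < n) {α : W.K} {t : W.H A.X} (ht : t ∈ T)
    (h : IsEigen A.act (g ^ n) α t) :
    ∃ a : W.K, a ^ n = α ∧ ∃ s ∈ T, IsEigen A.act g a s := by
  let f : Module.End W.K T := (A.act g).toLinearMap.restrict fun t ht => hT g trivial t ht
  have hf : ∀ (n : ℕ) (s : T), ((f ^ n) s : W.H A.X) = A.act (g ^ n) s := by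
    intro n
    induction n with
    | zero => intro s; rw [pow_zero, pow_zero, map_one]; rfl
    | succ n ih =>
      intro s
      rw [pow_succ, Module.End.mul_apply, ih, pow_succ, map_mul]
      rfl
  have h1 : (f ^ n).HasEigenvalue α := by
    refine Module.End.hasEigenvalue_of_hasEigenvector (x := ⟨t, ht⟩)
      ⟨Module.End.mem_eigenspace_iff.2 ?_, fun h0 => h.1 (congrArg Subtype.val h0)⟩
    apply Subtype.ext
    rw [hf]
    exact h.2
  obtain ⟨a, ha, hau⟩ := Pool.Agent.N179.FG.eig_pow hn h1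
  obtain ⟨s, hs, hs0⟩ := ha.exists_hasEigenvector
  exact ⟨a, hau, s, s.2, fun h0 => hs0 (Subtype.ext h0),
    congrArg Subtype.val (Module.End.mem_eigenspace_iff.1 hs)⟩

/-- a power of an eigenvector -/
theorem eigen_pow {A : GVar W Γ} {g : Γ} {α : W.K} {t : W.H A.X} (h : A.act g t = α • t) (n : ℕ) :
    A.act (g ^ n) t = α ^ n • t := by
  induction n with
  | zero => rw [pow_zero, pow_zero, map_one, one_smul]; rfl
  | succ n ih =>
    rw [pow_succ, map_mul]
    change A.act (g ^ n) (A.act g t) = _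
    rw [h, map_smul, ih, smul_smul, pow_succ, mul_comm]

/-- **The potential Tate classes on the product are in the span of the products with algebraic
classes.** -/
theorem split_of_good [IsAlgClosed W.K] {P : Set (Place Γ)}
    (hP : ∀ v ∈ P, ((χ v.σ : W.Kˣ) : W.K) = (v.p : W.K) ^ v.m) (hX : IsGaloisVar χ X)
    {T : Submodule W.K (W.H X.X)} (hT : StableAct X.act ⊤ T) (hc : IsCompl T (algSpan W X.X))
    (hss : ∀ Δ : Subgroup Γ, Δ.FiniteIndex → ∀ U ≤ T, StableAct X.act Δ U →
      (∀ v ∈ P, SupersingularAct v X.act U) → U = ⊥)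
    (hres : ∀ v ∈ P, ∀ (α : W.K), ∀ t ∈ T, IsEigen X.act v.σ α t →
      (∀ (N : ℕ) (b : ℤ), 0 < N → α ^ N ≠ (v.p : W.K) ^ b) →
      ∀ (β : W.K) (b : W.H Y.X), IsEigen Y.act v.σ β b →
      ∀ (n : ℕ) (i : ℤ), 0 < n → (α * β) ^ n ≠ (v.p : W.K) ^ i)
    (h1 : Intertwines (W.map (fst X.X Y.X)) X.act υ)
    (h2 : Intertwines (W.map (snd X.X Y.X)) Y.act υ)
    {c : W.H (X.X.prod Y.X)} {j : ℕ} {Δ : Subgroup Γ} (hΔ : Δ.FiniteIndex)
    (hcΔ : ∀ g ∈ Δ, υ g c = (χ g : W.K) ^ j • c) :
    c ∈ Submodule.span W.K {w | ∃ a ∈ algSpan W X.X, ∃ y : W.H Y.X,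
      w = W.map (fst X.X Y.X) a * W.map (snd X.X Y.X) y} := by
  set u := (kEquiv W X.X Y.X).symm c with hu
  have hcu : c = kEquiv W X.X Y.X u := by rw [hu, LinearEquiv.apply_symm_apply]
  have h3 : ∀ g : Δ, TensorProduct.map (X.act (g : Γ)).toLinearMap (Y.act (g : Γ)).toLinearMap u =
      (χ (g : Γ) : W.K) ^ j • u := by
    intro g
    apply (kEquiv W X.X Y.X).injective
    rw [← kEquiv_act h1 h2, map_smul, ← hcu]
    exact hcΔ g g.2
  obtain ⟨u', hu'⟩ := Pool.Agent.U173.GS.semi hc.symm (G := Δ)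
    (fun g => (X.act (g : Γ)).toLinearMap) (fun g => (Y.act (g : Γ)).toLinearMap)
    (fun g => (χ (g : Γ) : W.K) ^ j) (fun g => (X.act (g : Γ)).injective)
    (fun g => (Y.act (g : Γ)).injective)
    (fun g x hx => act_algSpan (isGalois hX) (g : Γ) hx) (fun g => hT g trivial) h3 (by
      intro U hUT hU0 hUs
      by_contra hno
      apply hU0
      refine hss Δ hΔ U hUT (fun g hg t ht => hUs ⟨g, hg⟩ t ht) ?_
      intro v hv n α hn t ht hα
      by_contra hno'
      push Not at hno'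
      apply hno
      obtain ⟨d, hd, -, hdΔ⟩ := Subgroup.exists_pow_mem_of_index_ne_zero hΔ.index_ne_zero v.σ
      have hg : v.σ ^ (n * d) ∈ Δ := by
        rw [mul_comm, pow_mul]
        exact Subgroup.pow_mem _ hdΔ _
      refine ⟨⟨v.σ ^ (n * d), hg⟩, α ^ d, t, ht, hα.1, ?_, fun β hβ heq => ?_⟩
      · change X.act (v.σ ^ (n * d)) t = α ^ d • t
        rw [pow_mul]
        exact eigen_pow hα.2 d
      · obtain ⟨a, ha, s, hs, has⟩ := exists_root hT hn (hUT ht) hα
        obtain ⟨y, hy, hy0⟩ := hβ.exists_hasEigenvector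
        obtain ⟨b, hb, z, -, hbz⟩ := exists_root (A := Y) (T := ⊤) (fun _ _ _ _ => trivial)
          (Nat.mul_pos hn hd) (t := y) trivial ⟨hy0, Module.End.mem_eigenspace_iff.1 hy⟩
        refine hres v hv a s hs has (fun N b' hN heq' => hno' N (b' * n) hN ?_) b z hbz (n * d)
          ((v.m * (n * d) * j : ℕ) : ℤ) (Nat.mul_pos hn hd) ?_
        · rw [← ha, ← pow_mul, mul_comm n N, pow_mul, heq', zpow_mul, zpow_natCast]
        · rw [mul_pow, pow_mul a, ha, hb, heq]
          change (χ (v.σ ^ (n * d)) : W.K) ^ j = _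
          rw [map_pow, Units.val_pow_eq_pow_val, hP v hv, zpow_natCast, ← pow_mul, ← pow_mul]
          congr 1
          ring)
  rw [hcu, ← hu']
  exact kEquiv_range u'

end Pool.Agent.U173.PT
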